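import Pool.Agent.K1H49.PL.Stm

set_option autoImplicit false

namespace Pool.Agent.K1H72.PosL

open Pool.Agent.K1H49.PL

universe u

variable {M : Type u}

/-- the conditions -/
abbrev Cond (M : Type u) (ι : Type) := Σ m : ℕ, Set ((LN m × ι) → M)

/-- the homogeneous properties of `c` -/
def Sg (Y : Sys M) {ι : Type} (c : Nd → ι → M) : Set (Cond M ι) :=
  {p | Y.D p.2 ∧ Hm c p.1 p.2}

/-- the pullback of a condition along an embedding -/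
def pb {ι : Type} (p : Cond M ι) (e : Nd → Nd) : Set (Nd × ι → M) :=
  {v : Nd × ι → M | (v ∘ (fun q : LN p.1 × ι => (e q.1.1, q.2))) ∈ p.2}

/-- realized families -/
def Fam (Y : Sys M) (ι : Type) : Set (Set (Cond M ι)) :=
  {G1 | (∀ p ∈ G1, Y.D p.2) ∧ ∃ c' : Nd → ι → M, ∀ p ∈ G1, Hm c' p.1 p.2}

theorem fin_mem {Y : Sys M} {ι : Type} {C : Set (Set (Cond M ι))}
    (hch : IsChain (· ⊆ ·) C) (hne : C.Nonempty) (Δ : Finset (Set (Nd × ι → M)))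
    (hΔ : ∀ T ∈ Δ, ∃ p ∈ ⋃₀ C, ∃ e, Emb e ∧ T = pb p e) :
    ∃ G1 ∈ C, ∀ T ∈ Δ, ∃ p ∈ G1, ∃ e, Emb e ∧ T = pb p e := by
  classical
  induction Δ using Finset.induction_on with
  | empty =>
    obtain ⟨G1, hG⟩ := hne
    exact ⟨G1, hG, fun T hT => absurd hT (Finset.notMem_empty T)⟩
  | insert T Δ hT ih =>
    obtain ⟨G1, hG, h1⟩ := ih (fun T' hT' => hΔ T' (Finset.mem_insert_of_mem hT'))
    obtain ⟨p, ⟨G2, hG2, hp⟩, e, he, hTe⟩ := hΔ T (Finset.mem_insert_self T Δ)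
    rcases hch.total hG hG2 with h | h
    · refine ⟨G2, hG2, fun T' hT' => ?_⟩
      rcases Finset.mem_insert.1 hT' with rfl | hT''
      · exact ⟨p, hp, e, he, hTe⟩
      · obtain ⟨p', hp', e', he', hTe'⟩ := h1 T' hT''
        exact ⟨p', h hp', e', he', hTe'⟩
    · refine ⟨G1, hG, fun T' hT' => ?_⟩
      rcases Finset.mem_insert.1 hT' with rfl | hT''
      · exact ⟨p, h hp, e, he, hTe⟩
      · exact h1 T' hT''

theorem chain_ub (Y : Sys M) {ι : Type} [Finite ι] (C : Set (Set (Cond M ι)))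
    (hC : C ⊆ Fam Y ι) (hch : IsChain (· ⊆ ·) C) (hne : C.Nonempty) :
    ∃ ub ∈ Fam Y ι, ∀ s ∈ C, s ⊆ ub := by
  have hD : ∀ p ∈ ⋃₀ C, Y.D p.2 := by
    rintro p ⟨G1, hG, hp⟩
    exact (hC hG).1 p hp
  obtain ⟨v, hv⟩ := Y.sat (α := Nd × ι)
    {T | ∃ p ∈ ⋃₀ C, ∃ e, Emb e ∧ T = pb p e}
    (by
      rintro T ⟨p, hp, e, he, rfl⟩
      exact Y.pull _ (hD p hp))
    (by
      intro Δ hΔ
      obtain ⟨G1, hG, h1⟩ := fin_mem (Y := Y) hch hne Δ hΔ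
      obtain ⟨c', hc'⟩ := (hC hG).2
      refine ⟨fun q => c' q.1 q.2, fun T hT => ?_⟩
      obtain ⟨p, hp, e, he, rfl⟩ := h1 T hT
      exact hc' p hp e he)
  refine ⟨⋃₀ C, ⟨hD, fun η i => v (η, i), fun p hp e he => ?_⟩,
    fun s hs => Set.subset_sUnion_of_mem hs⟩
  exact hv _ ⟨p, hp, e, he, rfl⟩

theorem t_MAX : Pool.Agent.K1H49.PL.S_MAX.{u} := by
  intro M Y ι _ c
  obtain ⟨Gm, hle, hmax⟩ := zorn_subset_nonempty (Fam Y ι)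
    (fun C hC hch hne => chain_ub Y C hC hch hne) (Sg Y c) ⟨fun p hp => hp.1, c, fun p hp => hp.2⟩
  obtain ⟨hD, c', hc'⟩ := hmax.prop
  refine ⟨c', fun m S hS h => hc' ⟨m, S⟩ (hle ⟨hS, h⟩), ?_⟩
  intro c'' hc'' m S hS h
  have h1 : Sg Y c'' ∈ Fam Y ι := ⟨fun p hp => hp.1, c'', fun p hp => hp.2⟩
  have h2 : Gm ⊆ Sg Y c'' := fun p hp => ⟨hD p hp, hc'' p.1 p.2 (hD p hp) (hc' p hp)⟩
  have h3 : Sg Y c'' ⊆ Gm := hmax.le_of_ge h1 h2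
  exact hc' ⟨m, S⟩ (h3 ⟨hS, h⟩)

end Pool.Agent.K1H72.PosL
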