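import Pool.Agent.K1H49.PL.Stm

set_option autoImplicit false

namespace Pool.Agent.K1H72.PosL

open Pool.Agent.K1H49.PL

universe u

section one

variable {M : Type u} {X V Z : Type}

/-- the `z`-component at `η` -/
def zat : ∀ n : ℕ, (An X Z n → M) → Nd → Z → M
  | 0, w, _ => zr w
  | _ + 1, w, [] => zr w
  | n + 1, w, false :: η => zat n (w0 w) η
  | n + 1, w, true :: η => zat n (w1 w) η

/-- the `x`-component at `σ` -/
def xat : ∀ n : ℕ, (An X Z n → M) → Nd → X → M
  | 0, w, _ => x0 w
  | n + 1, w, [] => xat n (w0 w) []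
  | n + 1, w, false :: σ => xat n (w0 w) σ
  | n + 1, w, true :: σ => xat n (w1 w) σ

theorem allz_zat (p : (Z → M) → Prop) : ∀ (n : ℕ) (w : An X Z n → M), allz p n w →
    ∀ η, p (zat n w η)
  | 0, _, h, _ => h
  | _ + 1, _, h, [] => h.1
  | n + 1, w, h, false :: η => allz_zat p n (w0 w) h.2.1 η
  | n + 1, w, h, true :: η => allz_zat p n (w1 w) h.2.2 η

theorem allx_xat (p : (X → M) → Prop) : ∀ (n : ℕ) (w : An X Z n → M), allx p n w →
    ∀ σ, p (xat n w σ)
  | 0, _, h, _ => h
  | n + 1, w, h, [] => allx_xat p n (w0 w) h.1 []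
  | n + 1, w, h, false :: σ => allx_xat p n (w0 w) h.1 σ
  | n + 1, w, h, true :: σ => allx_xat p n (w1 w) h.2 σ

variable (β : (X → M) → (V → M) → Prop) (α : (Z → M) → (V → M) → Prop)
  (γ : (X → M) → (Z → M) → Prop)

theorem rho0_xz : ∀ (n : ℕ) (w : An X Z n → M), rho0 γ n w → ∀ σ η : Nd, η <+: σ →
    γ (xat n w σ) (zat n w η)
  | 0, _, h, _, _, _ => h
  | n + 1, w, h, [], η, hη => by
    obtain rfl : η = [] := List.prefix_nil.1 hη
    exact allx_xat _ n (w0 w) h.2.2.1 []
  | n + 1, w, h, false :: σ, [], _ => allx_xat _ n (w0 w) h.2.2.1 σ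
  | n + 1, w, h, true :: σ, [], _ => allx_xat _ n (w1 w) h.2.2.2 σ
  | n + 1, w, h, false :: σ, false :: η, hη =>
    rho0_xz n (w0 w) h.1 σ η (List.cons_prefix_cons.1 hη).2
  | n + 1, w, h, true :: σ, true :: η, hη =>
    rho0_xz n (w1 w) h.2.1 σ η (List.cons_prefix_cons.1 hη).2
  | n + 1, w, h, false :: σ, true :: η, hη => absurd (List.cons_prefix_cons.1 hη).1 (by decide)
  | n + 1, w, h, true :: σ, false :: η, hη => absurd (List.cons_prefix_cons.1 hη).1 (by decide)

theorem rhoT_a (v : V ⊕ Z → M) : ∀ (n : ℕ) (w : An X Z n → M) (μ η : Nd),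
    rho β α γ n (.T μ) w v → η.length ≤ n → (μ ++ [false]) <+: η →
    α (zat n w η) (v ∘ Sum.inl)
  | 0, w, μ, η, _, hl, hp => by
    exfalso
    have := hp.length_le
    simp at this
    omega
  | n + 1, w, μ, [], _, _, hp => by
    exfalso
    have := hp.length_le
    simp at this
  | n + 1, w, [], false :: η, h, _, _ => by
    simp only [rho] at h
    exact allz_zat _ n (w0 w) h.1 η
  | n + 1, w, [], true :: η, _, _, hp =>
    absurd (List.cons_prefix_cons.1 hp).1 (by decide)
  | n + 1, w, false :: μ, false :: η, h, hl, hp => by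
    simp only [rho] at h
    exact rhoT_a v n (w0 w) μ η h (by simpa using hl) (List.cons_prefix_cons.1 hp).2
  | n + 1, w, true :: μ, true :: η, h, hl, hp => by
    simp only [rho] at h
    exact rhoT_a v n (w1 w) μ η h (by simpa using hl) (List.cons_prefix_cons.1 hp).2
  | n + 1, w, false :: μ, true :: η, _, _, hp =>
    absurd (List.cons_prefix_cons.1 hp).1 (by decide)
  | n + 1, w, true :: μ, false :: η, _, _, hp =>
    absurd (List.cons_prefix_cons.1 hp).1 (by decide)

theorem rhoT_b (v : V ⊕ Z → M) : ∀ (n : ℕ) (w : An X Z n → M) (μ σ : Nd),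
    rho β α γ n (.T μ) w v → σ.length ≤ n → (μ ++ [true]) <+: σ →
    β (xat n w σ) (v ∘ Sum.inl)
  | 0, w, μ, η, _, hl, hp => by
    exfalso
    have := hp.length_le
    simp at this
    omega
  | n + 1, w, μ, [], _, _, hp => by
    exfalso
    have := hp.length_le
    simp at this
  | n + 1, w, [], true :: σ, h, _, _ => by
    simp only [rho] at h
    exact allx_xat _ n (w1 w) h.2.2.1 σ
  | n + 1, w, [], false :: η, _, _, hp =>
    absurd (List.cons_prefix_cons.1 hp).1 (by decide)
  | n + 1, w, false :: μ, false :: η, h, hl, hp => by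
    simp only [rho] at h
    exact rhoT_b v n (w0 w) μ η h (by simpa using hl) (List.cons_prefix_cons.1 hp).2
  | n + 1, w, true :: μ, true :: η, h, hl, hp => by
    simp only [rho] at h
    exact rhoT_b v n (w1 w) μ η h (by simpa using hl) (List.cons_prefix_cons.1 hp).2
  | n + 1, w, false :: μ, true :: η, _, _, hp =>
    absurd (List.cons_prefix_cons.1 hp).1 (by decide)
  | n + 1, w, true :: μ, false :: η, _, _, hp =>
    absurd (List.cons_prefix_cons.1 hp).1 (by decide)

theorem rhoT_c (v : V ⊕ Z → M) : ∀ (n : ℕ) (w : An X Z n → M) (μ σ : Nd),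
    rho β α γ n (.T μ) w v → σ.length ≤ n → μ <+: σ →
    γ (xat n w σ) (v ∘ Sum.inr)
  | 0, w, μ, σ, h, hl, hp => by
    obtain rfl : σ = [] := List.length_eq_zero_iff.1 (by omega)
    simp only [rho] at h
    exact h (List.prefix_nil.1 hp)
  | n + 1, w, [], [], h, _, _ => by
    simp only [rho] at h
    exact allx_xat _ n (w0 w) h.2.1 []
  | n + 1, w, [], false :: σ, h, _, _ => by
    simp only [rho] at h
    exact allx_xat _ n (w0 w) h.2.1 σ
  | n + 1, w, [], true :: σ, h, _, _ => by
    simp only [rho] at h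
    exact allx_xat _ n (w1 w) h.2.2.2 σ
  | n + 1, w, b :: μ, [], _, _, hp => by
    exfalso
    have := hp.length_le
    simp at this
  | n + 1, w, false :: μ, false :: η, h, hl, hp => by
    simp only [rho] at h
    exact rhoT_c v n (w0 w) μ η h (by simpa using hl) (List.cons_prefix_cons.1 hp).2
  | n + 1, w, true :: μ, true :: η, h, hl, hp => by
    simp only [rho] at h
    exact rhoT_c v n (w1 w) μ η h (by simpa using hl) (List.cons_prefix_cons.1 hp).2
  | n + 1, w, false :: μ, true :: η, _, _, hp =>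
    absurd (List.cons_prefix_cons.1 hp).1 (by decide)
  | n + 1, w, true :: μ, false :: η, _, _, hp =>
    absurd (List.cons_prefix_cons.1 hp).1 (by decide)

theorem pos_Tc : ∀ (n : ℕ) (ν π μ : Nd), μ.length ≤ n →
    (π ++ μ, Lab.T (ν ++ μ)) ∈ (Tc n ν).pos π
  | 0, ν, π, μ, h => by
    obtain rfl : μ = [] := List.length_eq_zero_iff.1 (by omega)
    simp [Tc, Sh.pos]
  | n + 1, ν, π, [], _ => by simp [Tc, Sh.pos]
  | n + 1, ν, π, false :: μ, h => by
    have h1 := pos_Tc n (ν ++ [false]) (π ++ [false]) μ (by simpa using h)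
    have e1 : (π ++ [false]) ++ μ = π ++ false :: μ := by simp
    have e2 : (ν ++ [false]) ++ μ = ν ++ false :: μ := by simp
    rw [e1, e2] at h1
    simp only [Tc, Sh.pos, List.mem_append]
    exact Or.inr (Or.inl h1)
  | n + 1, ν, π, true :: μ, h => by
    have h1 := pos_Tc n (ν ++ [true]) (π ++ [true]) μ (by simpa using h)
    have e1 : (π ++ [true]) ++ μ = π ++ true :: μ := by simp
    have e2 : (ν ++ [true]) ++ μ = ν ++ true :: μ := by simp
    rw [e1, e2] at h1
    simp only [Tc, Sh.pos, List.mem_append]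
    exact Or.inr (Or.inr h1)

/-- the chain -/
def chn : Nd → AS
  | [] => .lab .rl .nil
  | false :: s => .lab .rl (chn s)
  | true :: s => .lab .pr (chn s)

theorem chn_noS : ∀ s : Nd, (chn s).noS
  | [] => trivial
  | false :: s => chn_noS s
  | true :: s => chn_noS s

theorem pos_chnR : ∀ (s π η : Nd), η <+: s → (π ++ η, Lab.R) ∈ ((chn s).ex 0).pos π
  | [], π, η, h => by
    obtain rfl : η = [] := List.prefix_nil.1 h
    simp [chn, AS.ex, Kd.dir, Kd.labs, Sh.pos]
  | false :: s, π, [], _ => by simp [chn, AS.ex, Kd.dir, Kd.labs, Sh.pos]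
  | true :: s, π, [], _ => by simp [chn, AS.ex, Kd.dir, Kd.labs, Sh.pos]
  | false :: s, π, false :: η, h => by
    have h1 := pos_chnR s (π ++ [false]) η (List.cons_prefix_cons.1 h).2
    have e1 : (π ++ [false]) ++ η = π ++ false :: η := by simp
    rw [e1] at h1
    simp only [chn, AS.ex, Kd.dir, Kd.labs, Sh.pos, List.mem_append, Bool.false_eq_true, if_false]
    exact Or.inr (Or.inl h1)
  | true :: s, π, true :: η, h => by
    have h1 := pos_chnR s (π ++ [true]) η (List.cons_prefix_cons.1 h).2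
    have e1 : (π ++ [true]) ++ η = π ++ true :: η := by simp
    rw [e1] at h1
    simp only [chn, AS.ex, Kd.dir, Kd.labs, Sh.pos, List.mem_append, if_true]
    exact Or.inr (Or.inr h1)
  | true :: s, π, false :: η, h => absurd (List.cons_prefix_cons.1 h).1 (by decide)
  | false :: s, π, true :: η, h => absurd (List.cons_prefix_cons.1 h).1 (by decide)

theorem pos_chnP : ∀ (s π μ : Nd), (μ ++ [true]) <+: s → (π ++ μ, Lab.P) ∈ ((chn s).ex 0).pos π
  | [], π, μ, h => by
    exfalso
    have := h.length_le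
    simp at this
  | false :: s, π, [], h => absurd (List.cons_prefix_cons.1 h).1 (by decide)
  | true :: s, π, [], _ => by simp [chn, AS.ex, Kd.dir, Kd.labs, Sh.pos]
  | false :: s, π, false :: η, h => by
    have h1 := pos_chnP s (π ++ [false]) η (List.cons_prefix_cons.1 h).2
    have e1 : (π ++ [false]) ++ η = π ++ false :: η := by simp
    rw [e1] at h1
    simp only [chn, AS.ex, Kd.dir, Kd.labs, Sh.pos, List.mem_append, Bool.false_eq_true, if_false]
    exact Or.inr (Or.inl h1)
  | true :: s, π, true :: η, h => by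
    have h1 := pos_chnP s (π ++ [true]) η (List.cons_prefix_cons.1 h).2
    have e1 : (π ++ [true]) ++ η = π ++ true :: η := by simp
    rw [e1] at h1
    simp only [chn, AS.ex, Kd.dir, Kd.labs, Sh.pos, List.mem_append, if_true]
    exact Or.inr (Or.inr h1)
  | true :: s, π, false :: η, h => absurd (List.cons_prefix_cons.1 h).1 (by decide)
  | false :: s, π, true :: η, h => absurd (List.cons_prefix_cons.1 h).1 (by decide)

theorem emb_id : Emb (id : Nd → Nd) := fun π d => List.prefix_refl (π ++ [d])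

end one

theorem t_ONE : Pool.Agent.K1H49.PL.S_ONE.{u} := by
  intro M X V Z β α γ c hTC hD n
  obtain ⟨w, hw0, hw⟩ := hD n (.split (.lab .q .nil) .tt) ⟨trivial, trivial⟩ id emb_id
  have hQ : rho β α γ n .Q w (c [false]) := by
    refine hw ([false], .Q) ?_
    simp [AS.ex, Kd.dir, Kd.labs, Sh.pos]
  have hT : ∀ μ : Nd, μ.length ≤ n → rho β α γ n (.T μ) w (c (true :: μ)) := by
    intro μ hμ
    refine hw (true :: μ, .T μ) ?_
    have h1 := pos_Tc n [] [true] μ hμ
    simp only [AS.ex, Sh.pos, List.mem_append]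
    exact Or.inr (Or.inr h1)
  have hQ' : ∀ η, α (zat n w η) (c [false] ∘ Sum.inl) := allz_zat _ n w (by cases n <;> exact hQ)
  refine ⟨fun μ => c (true :: μ) ∘ Sum.inl,
    fun η => Sum.elim (c (true :: η) ∘ Sum.inr) (Sum.elim (zat n w η) (c [false] ∘ Sum.inl)),
    fun μ η hη hp => ?_, fun σ hσ => ?_⟩
  · have hμ : μ.length ≤ n := by
      have := hp.length_le
      simp at this
      omega
    refine ⟨?_, ?_⟩
    · exact hTC.1 (true :: μ) (true :: η) (List.cons_prefix_cons.2 ⟨rfl, hp⟩)
    · exact rhoT_a β α γ _ n w μ η (hT μ hμ) hη hp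
  · obtain ⟨w', -, hw'⟩ := hD 0 (.split (.lab .p .nil) (chn σ)) ⟨trivial, chn_noS σ⟩ id emb_id
    have hP : β (x0 w') (c [false] ∘ Sum.inl) := by
      have h1 := hw' ([false], .P) (by simp [AS.ex, Kd.dir, Kd.labs, Sh.pos])
      exact h1
    have hPc : ∀ μ, (μ ++ [true]) <+: σ → β (x0 w') (c (true :: μ) ∘ Sum.inl) := by
      intro μ hμ
      have h1 := pos_chnP σ [true] μ hμ
      have h2 := hw' (true :: μ, .P) (by
        simp only [AS.ex, Sh.pos, List.mem_append]
        exact Or.inr (Or.inr h1))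
      exact h2
    have hRc : ∀ η, η <+: σ → γ (x0 w') (c (true :: η) ∘ Sum.inr) := by
      intro η hη
      have h1 := pos_chnR σ [true] η hη
      have h2 := hw' (true :: η, .R) (by
        simp only [AS.ex, Sh.pos, List.mem_append]
        exact Or.inr (Or.inr h1))
      exact h2
    refine ⟨Sum.elim (xat n w σ) (Sum.elim (x0 w') (c [false] ∘ Sum.inl)), fun μ hμ => ?_,
      fun η hη => ?_⟩
    · have hμl : μ.length ≤ n := by
        have := hμ.length_le
        simp at this
        omega
      exact ⟨rhoT_b β α γ _ n w μ σ (hT μ hμl) hσ hμ, hPc μ hμ⟩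
    · have hηl : η.length ≤ n := hη.length_le.trans hσ
      exact ⟨rhoT_c β α γ _ n w η σ (hT η hηl) hσ hη, rho0_xz γ n w hw0 σ η hη, hRc η hη, hP,
        hQ' η, rfl⟩

end Pool.Agent.K1H72.PosL
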